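import Pool.Agent.FS.RowCol.B
import Pool.Agent.FS.SimOrb.C

namespace Pool.Agent.Results.MP_0ee9ff_an.RowColumn

open MeasureTheory
open scoped ENNReal NNReal

/-- Lebesgue measure on the open interval from a to b, where the end points may be infinite. -/
noncomputable def leb (a b : EReal) : Measure ℝ :=
  volume.restrict {x : ℝ | a < (x : EReal) ∧ (x : EReal) < b}

/-- The complex Hilbert space `L²(μ)`. -/
abbrev L2 (μ : Measure ℝ) : Type := Lp ℂ 2 μ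

/-- The map `N` on `L²(μ)` is a Carleman operator with kernel `ν`. -/
def HasCarlemanKernel (μ : Measure ℝ) (N : L2 μ → L2 μ) (ν : ℝ → ℝ → ℂ) : Prop :=
  AEStronglyMeasurable (Function.uncurry ν) (μ.prod μ) ∧
    (∀ᵐ x ∂μ, ∫⁻ y, ‖ν x y‖ₑ ^ 2 ∂μ < ∞) ∧
    ∀ f : L2 μ, ∀ᵐ x ∂μ, N f x = ∫ y, ν x y * f y ∂μ

/-- `N = U T U⁻¹` for some unitary `U`. -/
def UnitarilyEquivalent {H : Type} [NormedAddCommGroup H] [InnerProductSpace ℂ H]
    (T : H →L[ℂ] H) (N : H → H) : Prop :=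
  ∃ U : H ≃ₗᵢ[ℂ] H, N = fun f => U (T (U.symm f))

/-- The squared `L²` norm of the kernel in its first variable. -/
noncomputable def colSq (μ : Measure ℝ) (ν : ℝ → ℝ → ℂ) (y : ℝ) : ℝ≥0∞ :=
  ∫⁻ x, ‖ν x y‖ₑ ^ 2 ∂μ

/-- The squared `L²` norm of the kernel in its second variable. -/
noncomputable def rowSq (μ : Measure ℝ) (ν : ℝ → ℝ → ℂ) (y : ℝ) : ℝ≥0∞ :=
  ∫⁻ x, ‖ν y x‖ₑ ^ 2 ∂μ

/-- `m ‖T* f‖² ≤ ‖T f‖² ≤ M ‖T* f‖²` for all `f`. -/
def OperatorBounds {H : Type} [NormedAddCommGroup H] [InnerProductSpace ℂ H] [CompleteSpace H]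
    (m M : ℝ≥0) (T : H →L[ℂ] H) : Prop :=
  ∀ f, (m : ℝ) * ‖ContinuousLinearMap.adjoint T f‖ ^ 2 ≤ ‖T f‖ ^ 2 ∧
    ‖T f‖ ^ 2 ≤ (M : ℝ) * ‖ContinuousLinearMap.adjoint T f‖ ^ 2

/-- `m rowSq ≤ colSq ≤ M rowSq` almost everywhere. -/
def KernelBounds (μ : Measure ℝ) (m M : ℝ≥0) (ν : ℝ → ℝ → ℂ) : Prop :=
  ∀ᵐ y ∂μ, (m : ℝ≥0∞) * rowSq μ ν y ≤ colSq μ ν y ∧ colSq μ ν y ≤ (M : ℝ≥0∞) * rowSq μ ν y

theorem result (a b : EReal) (hab : a < b) (T : L2 (leb a b) →L[ℂ] L2 (leb a b))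
    (hT : ∃ N ν, UnitarilyEquivalent T N ∧ HasCarlemanKernel (leb a b) N ν) (m M : ℝ≥0) :
    OperatorBounds m M T ↔
      ∀ N ν, UnitarilyEquivalent T N → HasCarlemanKernel (leb a b) N ν →
        KernelBounds (leb a b) m M ν := by
  have : SigmaFinite (leb a b) := by unfold leb; infer_instance
  have : IsSeparable (leb a b) := by unfold leb; infer_instance
  constructor
  · rintro h N ν ⟨U, rfl⟩ hν
    refine Pool.Agent.FS.RowCol.kernel_bounds (Pool.Agent.Lib.MP_0ee9ff_an.conjOp U T) m M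
      (fun f => ?_) ν hν.1 hν.2.1 hν.2.2
    rw [Pool.Agent.Lib.MP_0ee9ff_an.adjoint_conjOp, Pool.Agent.Lib.MP_0ee9ff_an.conjOp_apply,
      U.norm_map, U.norm_map]
    exact h _
  · intro h
    have hW : ∃ f : ℕ → L2 (leb a b), Orthonormal ℂ f ∧
        Filter.Tendsto (fun n => ContinuousLinearMap.adjoint T (f n)) Filter.atTop (nhds 0) := by
      obtain ⟨N, ν, ⟨U, rfl⟩, h2⟩ := hT
      refine by_contra fun h3 => Pool.Agent.FS.SimOrb.not_ae_false a b hab ?_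
      obtain ⟨c, g, hg, hle⟩ := Pool.Agent.FS.SimOrb.gap_sim T h3 U.toContinuousLinearEquiv 1
      obtain ⟨φ, hφ⟩ := Pool.Agent.FS.SimOrb.exists_thick_basis a b hab
      rw [← ae_eq_bot, ← Filter.eventually_false_iff_eq_bot]
      exact Pool.Agent.FS.SimOrb.no_gap φ hφ
        (Pool.Agent.FS.SimOrb.simOp U.toContinuousLinearEquiv T) ν h2.1 h2.2.1 h2.2.2 c g hg hle
    obtain ⟨f, hf, hA⟩ := hW
    refine Pool.Agent.FS.RowCol.bounds_of_tests T _ m M fun x hx ε hε => ?_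
    obtain ⟨U, ν, S, v, k1, k2, k3, k4, k5, k6⟩ :=
      Pool.Agent.FS.RowCol.exists_test a b hab T f hf hA x hx hε
    have h1 : ∀ᵐ _y ∂(leb a b), _ := h _ ν ⟨U, rfl⟩ ⟨k1, k2, k3⟩
    refine ⟨v, ?_, ?_, k6⟩
    · refine le_of_eq_of_le (congrArg _ k5) (le_of_le_of_eq ?_ k4.symm)
      rw [← lintegral_const_mul' _ _ ENNReal.coe_ne_top]
      exact lintegral_mono_ae (ae_restrict_of_ae (h1.mono fun y hy => hy.1))
    · refine le_of_eq_of_le k4 (le_of_le_of_eq ?_ (congrArg _ k5.symm))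
      rw [← lintegral_const_mul' _ _ ENNReal.coe_ne_top]
      exact lintegral_mono_ae (ae_restrict_of_ae (h1.mono fun y hy => hy.2))

end Pool.Agent.Results.MP_0ee9ff_an.RowColumn
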