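import Pool.Agent.FS.SimOrb.C

namespace Pool.Agent.Results.MP_0ee9ff_an.SimilarityOrbits

open MeasureTheory
open scoped ENNReal

/-- Lebesgue measure on the open interval from a to b, where the end points may be infinite. -/
noncomputable def leb (a b : EReal) : Measure ℝ :=
  volume.restrict {x : ℝ | a < (x : EReal) ∧ (x : EReal) < b}

/-- The complex Hilbert space `L²(μ)`. -/
abbrev L2 (μ : Measure ℝ) : Type := Lp ℂ 2 μ

/-- The map `N` on `L²(μ)` is a Carleman operator with kernel `ν`. -/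
def HasCarlemanKernel (μ : Measure ℝ) (N : L2 μ → L2 μ) (ν : ℝ → ℝ → ℂ) : Prop :=
  AEStronglyMeasurable (Function.uncurry ν) (μ.prod μ) ∧
    (∀ᵐ x ∂μ, ∫⁻ y, ‖ν x y‖ₑ ^ 2 ∂μ < ∞) ∧
    ∀ f : L2 μ, ∀ᵐ x ∂μ, N f x = ∫ y, ν x y * f y ∂μ

/-- `T` is a Hilbert-Schmidt operator. -/
def HilbertSchmidt {H : Type} [NormedAddCommGroup H] [InnerProductSpace ℂ H]
    (T : H →L[ℂ] H) : Prop :=
  ∃ (w : Set H) (e : HilbertBasis w ℂ H), Summable fun i => ‖T (e i)‖ ^ 2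

/-- `T* fₙ → 0` for some orthonormal sequence `fₙ`. -/
def AdjointWeylZero {H : Type} [NormedAddCommGroup H] [InnerProductSpace ℂ H] [CompleteSpace H]
    (T : H →L[ℂ] H) : Prop :=
  ∃ f : ℕ → H, Orthonormal ℂ f ∧
    Filter.Tendsto (fun n => ContinuousLinearMap.adjoint T (f n)) Filter.atTop (nhds 0)

/-- `N = S T S⁻¹` for some bounded invertible `S`. -/
def Similar {H : Type} [NormedAddCommGroup H] [InnerProductSpace ℂ H]
    (T : H →L[ℂ] H) (N : H → H) : Prop :=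
  ∃ S : H ≃L[ℂ] H, N = fun f => S (T (S.symm f))

/-- `N = S T S⁻¹` with `S = U + K` invertible, `U` unitary, `K` compact of norm at most `ε`. -/
def CloselySimilar {H : Type} [NormedAddCommGroup H] [InnerProductSpace ℂ H] (ε : ℝ)
    (T : H →L[ℂ] H) (N : H → H) : Prop :=
  ∃ (S : H ≃L[ℂ] H) (U : H ≃ₗᵢ[ℂ] H), IsCompactOperator (fun f => S f - U f) ∧
    (∀ f, ‖S f - U f‖ ≤ ε * ‖f‖) ∧ N = fun f => S (T (S.symm f))

/-- The squared `L²` norm of the kernel in its first variable. -/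
noncomputable def colSq (μ : Measure ℝ) (ν : ℝ → ℝ → ℂ) (y : ℝ) : ℝ≥0∞ :=
  ∫⁻ x, ‖ν x y‖ₑ ^ 2 ∂μ

theorem result (a b : EReal) (hab : a < b) (T : L2 (leb a b) →L[ℂ] L2 (leb a b)) :
    List.TFAE
      [¬ HilbertSchmidt T ∧ AdjointWeylZero T,
        ¬ HilbertSchmidt T ∧ ∃ N ν, Similar T N ∧ HasCarlemanKernel (leb a b) N ν,
        ∃ N ν, Similar T N ∧ HasCarlemanKernel (leb a b) N ν ∧
          0 < leb a b {y | colSq (leb a b) ν y = ∞},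
        ∀ ε : ℝ, 0 < ε → ∃ N ν, CloselySimilar ε T N ∧ HasCarlemanKernel (leb a b) N ν ∧
          ∀ᵐ y ∂(leb a b), colSq (leb a b) ν y = ∞] := by
  have : SigmaFinite (leb a b) := by unfold leb; infer_instance
  have : IsSeparable (leb a b) := by unfold leb; infer_instance
  have : Fact ((2 : ℝ≥0∞) ≠ ∞) := ⟨by norm_num⟩
  have h0 : leb a b ≠ 0 := Pool.Agent.FS.SimOrb.not_ae_false a b hab
  tfae_have 1 → 4 := by
    rintro ⟨h1, h2⟩ ε hε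
    obtain ⟨K, S, k1, k2, k3, k4⟩ := Pool.Agent.FS.SimOrb.exists_shear T h1 h2 hε
    obtain ⟨U, ν, u1, u2, u3, u4⟩ := Pool.Agent.Lib.MP_0ee9ff_an.exists_bad_conj a b hab _ k4
    obtain ⟨S', s1, s2, s3⟩ := Pool.Agent.FS.SimOrb.near_trans T K S U k1 k2 k3
    exact ⟨_, ν, ⟨S', U, s2, s3, s1.symm⟩, ⟨u1, u2, u3⟩, u4⟩
  tfae_have 4 → 3 := by
    intro h
    obtain ⟨N, ν, ⟨S, -, -, -, hS⟩, h1, h2⟩ := h 1 one_pos
    refine ⟨N, ν, ⟨S, hS⟩, h1, pos_iff_ne_zero.2 fun h3 => h0 ?_⟩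
    rw [← ae_eq_bot, ← Filter.eventually_false_iff_eq_bot]
    filter_upwards [h2, measure_eq_zero_iff_ae_notMem.1 h3] with y h4 h5
    exact h5 h4
  tfae_have 3 → 2 := by
    rintro ⟨N, ν, ⟨S, rfl⟩, h1, h2⟩
    refine ⟨?_, _, ν, ⟨S, rfl⟩, h1⟩
    rintro ⟨w, e, he⟩
    refine h2.ne' (measure_eq_zero_iff_ae_notMem.2 ?_)
    filter_upwards [Pool.Agent.Lib.MP_0ee9ff_an.col_lt_top _
      (Pool.Agent.FS.SimOrb.dom_of_hs T e he S) ν h1.1 h1.2.1 h1.2.2] with y hy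
    exact hy.ne
  tfae_have 2 → 1 := by
    rintro ⟨h1, N, ν, ⟨S, rfl⟩, h2⟩
    refine ⟨h1, by_contra fun h3 => h0 ?_⟩
    obtain ⟨c, g, hg, hle⟩ := Pool.Agent.FS.SimOrb.gap_sim T h3 S 1
    obtain ⟨φ, hφ⟩ := Pool.Agent.FS.SimOrb.exists_thick_basis a b hab
    rw [← ae_eq_bot, ← Filter.eventually_false_iff_eq_bot]
    exact Pool.Agent.FS.SimOrb.no_gap φ hφ (Pool.Agent.FS.SimOrb.simOp S T) ν h2.1 h2.2.1 h2.2.2
      c g hg hle
  tfae_finish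

end Pool.Agent.Results.MP_0ee9ff_an.SimilarityOrbits
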