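import Pool.Agent.Lib.MP_0ee9ff_an.Orbit5

namespace Pool.Agent.Results.MP_0ee9ff_an.UnitaryOrbits

open MeasureTheory
open scoped ENNReal

/-- Lebesgue measure on the open interval from a to b, where the end points may be infinite. -/
noncomputable def leb (a b : EReal) : Measure ℝ :=
  volume.restrict {x : ℝ | a < (x : EReal) ∧ (x : EReal) < b}

/-- The complex Hilbert space `L²(μ)`. -/
abbrev L2 (μ : Measure ℝ) : Type := Lp ℂ 2 μ

/-- The map `N` on `L²(μ)` is a Carleman operator with kernel `ν`. -/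
def HasCarlemanKernel (μ : Measure ℝ) (N : L2 μ → L2 μ) (ν : ℝ → ℝ → ℂ) : Prop :=
  AEStronglyMeasurable (Function.uncurry ν) (μ.prod μ) ∧
    (∀ᵐ x ∂μ, ∫⁻ y, ‖ν x y‖ₑ ^ 2 ∂μ < ∞) ∧
    ∀ f : L2 μ, ∀ᵐ x ∂μ, N f x = ∫ y, ν x y * f y ∂μ

/-- `N = U T U⁻¹` for some unitary `U`. -/
def UnitarilyEquivalent {H : Type} [NormedAddCommGroup H] [InnerProductSpace ℂ H]
    (T : H →L[ℂ] H) (N : H → H) : Prop :=
  ∃ U : H ≃ₗᵢ[ℂ] H, N = fun f => U (T (U.symm f))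

/-- `T* T ≤ c T T* + S` with `S` positive of trace class, written with vectors. -/
def TraceDominated {H : Type} [NormedAddCommGroup H] [InnerProductSpace ℂ H] [CompleteSpace H]
    (T : H →L[ℂ] H) : Prop :=
  ∃ (c : ℝ) (g : ℕ → H), Summable (fun n => ‖g n‖ ^ 2) ∧
    ∀ f, ‖T f‖ ^ 2 ≤ c * ‖ContinuousLinearMap.adjoint T f‖ ^ 2 + ∑' n, ‖inner ℂ (g n) f‖ ^ 2

theorem result (a b : EReal) (hab : a < b) (T : L2 (leb a b) →L[ℂ] L2 (leb a b)) :
    List.TFAE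
      [TraceDominated T,
        ∀ (N : L2 (leb a b) → L2 (leb a b)) (ν : ℝ → ℝ → ℂ),
          UnitarilyEquivalent T N → HasCarlemanKernel (leb a b) N ν →
            ∀ᵐ y ∂(leb a b), ∫⁻ x, ‖ν x y‖ₑ ^ 2 ∂(leb a b) < ∞,
        ¬ ∃ (N : L2 (leb a b) → L2 (leb a b)) (ν : ℝ → ℝ → ℂ),
          UnitarilyEquivalent T N ∧ HasCarlemanKernel (leb a b) N ν ∧
            ∀ᵐ y ∂(leb a b), ∫⁻ x, ‖ν x y‖ₑ ^ 2 ∂(leb a b) = ∞] := by
  have : SigmaFinite (leb a b) := by unfold leb; infer_instance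
  tfae_have 1 → 2 := by
    rintro h N ν ⟨U, rfl⟩ hν
    exact Pool.Agent.Lib.MP_0ee9ff_an.col_lt_top _
      (Pool.Agent.Lib.MP_0ee9ff_an.Dom.conjOp U h) ν hν.1 hν.2.1 hν.2.2
  tfae_have 2 → 3 := by
    rintro h ⟨N, ν, h0, h1, h2⟩
    have h3 : ∀ᵐ _y ∂(leb a b), False := by
      filter_upwards [h N ν h0 h1, h2] with y h4 h5
      exact h4.ne h5
    obtain ⟨c, d, k1, -, k3⟩ := Pool.Agent.Lib.MP_0ee9ff_an.exists_partition a b hab
    rw [Filter.eventually_false_iff_eq_bot, ae_eq_bot, leb, Measure.restrict_eq_zero, ← k3] at h3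
    have h4 := measure_mono_null (Set.subset_iUnion (fun n => Set.Ioc (c n) (d n)) 0) h3
    rw [Real.volume_Ioc, ENNReal.ofReal_eq_zero] at h4
    linarith [k1 0]
  tfae_have 3 → 1 := by
    intro h
    by_contra hD
    obtain ⟨U, ν, h1, h2, h3, h4⟩ := Pool.Agent.Lib.MP_0ee9ff_an.exists_bad_conj a b hab T hD
    exact h ⟨_, ν, ⟨U, rfl⟩, ⟨h1, h2, h3⟩, h4⟩
  tfae_finish

end Pool.Agent.Results.MP_0ee9ff_an.UnitaryOrbits
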